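import Mathlib
import Pool.Agent.H81.Shore.Slim

/-!
Shoreline search with unknown distance: the minimax competitive ratio, attained by an exponential
spiral.  The plane is `ℂ`.
-/

open Real

namespace Pool.Agent.Results.MP_d27861_lc.Shoreline

/-- A trajectory: `γ 0 = 0` and `|γ s - γ t| ≤ |s - t|` for all times `s, t ≥ 0`. -/
def IsTrajectory (γ : ℝ → ℂ) : Prop :=
  γ 0 = 0 ∧ ∀ s t : ℝ, 0 ≤ s → 0 ≤ t → ‖γ s - γ t‖ ≤ |s - t|

/-- The competitive ratio of `γ` is at most `ρ`: `γ` meets every line not through `0` at a time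
`t ≤ ρ d`, `d > 0` the distance of the line from `0`.  The line at distance `d` with normal
direction `φ` is `x cos φ + y sin φ = d`. -/
def RatioAtMost (γ : ℝ → ℂ) (ρ : ℝ) : Prop :=
  ∀ φ d : ℝ, 0 < d → ∃ t : ℝ, 0 ≤ t ∧ t ≤ ρ * d ∧ (γ t).re * cos φ + (γ t).im * sin φ = d

/-- The exponential spiral `R = sin α * exp (θ * tan α)` about `0` at unit speed: at time `t > 0`
the polar coordinates are `R = sin α * t` and `θ = log t / tan α`. -/
noncomputable def spiral (α t : ℝ) : ℂ :=
  ⟨sin α * t * cos (log t / tan α), sin α * t * sin (log t / tan α)⟩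

/-- **The minimax competitive ratio of the shoreline problem** is `1 / (sin α cos ω)`, about
`13.8111351795`, and it is attained by the exponential spiral with `b = tan α`. -/
theorem result : ∃ α ω : ℝ, 0 < α ∧ α < ω ∧ ω < π / 2 ∧
    (2 * π - α - ω) * tan α = log (cos α / cos ω) ∧
    (2 * π - α - ω) * (sin α * sin ω) = cos α ^ 2 * sin (α + ω) ∧
    0.2124695594 < tan α ∧ tan α < 0.2124695595 ∧
    13.811135178 < 1 / (sin α * cos ω) ∧ 1 / (sin α * cos ω) < 13.811135181 ∧
    IsTrajectory (spiral α) ∧ RatioAtMost (spiral α) (1 / (sin α * cos ω)) ∧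
    ∀ (γ : ℝ → ℂ) (ρ : ℝ), IsTrajectory γ → RatioAtMost γ ρ → 1 / (sin α * cos ω) ≤ ρ :=
  Pool.Agent.H81.Shore.slim

end Pool.Agent.Results.MP_d27861_lc.Shoreline
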